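import Pool.Agent.Helper5.RO.Goals

/-!
# Project RO (MP_a41896_nt): packet RO-EST, the main estimate
-/

namespace Pool.Agent.Helper17.RO

open WeierstrassCurve Height Height.AdmissibleAbsValues MvPolynomial
open Pool.Agent.Helper29.BL Pool.Agent.Helper29.GC Pool.Agent.Helper5.RO

noncomputable section

lemma degreeOf_lc {K : Type} [Field K] {n : ℕ} {ι : Type} [Fintype ι]
    (f : ι → MvPolynomial (Fin n) K) (μ : ι → K) {D : ℕ} (hf : ∀ j i, degreeOf i (f j) ≤ D)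
    (i : Fin n) : degreeOf i (lc f μ) ≤ D := by
  refine (degreeOf_sum_le i Finset.univ _).trans (Finset.sup_le fun j _ => ?_)
  exact (degreeOf_C_mul_le _ _ _).trans (hf j i)

lemma abv_le_exp_posLog {K : Type} [Field K] (v : AbsoluteValue K ℝ) (a : K) :
    v a ≤ Real.exp (Real.posLog (v a)) := by
  rcases eq_or_lt_of_le (v.nonneg a) with h0 | h0
  · rw [← h0]; exact (Real.exp_pos _).le
  · conv_lhs => rw [← Real.exp_log h0]
    exact Real.exp_le_exp.2 (le_max_right _ _)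

/-- the value of a member of the linear system -/
lemma abv_lc {K : Type} [Field K] [AdmissibleAbsValues K] {n : ℕ} {ι : Type} [Fintype ι]
    (f : ι → MvPolynomial (Fin n) K) (μ : ι → K) :
    ∃ c : AbsoluteValue K ℝ → ℝ, FS c ∧ (∀ v, 0 ≤ c v) ∧
      ∀ v (x : Fin n → K), v (eval x (lc f μ)) ≤ Real.exp (c v) * Fm f v x := by
  classical
  have h1 : (1 : ℝ) ≤ (Fintype.card ι : ℝ) + 1 := by
    have : (0 : ℝ) ≤ (Fintype.card ι : ℝ) := Nat.cast_nonneg _
    linarith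
  refine ⟨fun v => Real.log (cst v (Fintype.card ι + 1)) + ∑ j, Real.posLog (v (μ j)),
    (FS_log_cst _).add (FS.sum _ fun j _ => FS_posLog _), fun v =>
      add_nonneg (Real.log_nonneg (one_le_cst v h1))
        (Finset.sum_nonneg fun j _ => Real.posLog_nonneg), fun v x => ?_⟩
  rw [Real.exp_add, Real.exp_log (cst_pos v h1), mul_assoc, lc, map_sum]
  refine abv_sum_le v _ _ (mul_nonneg (Real.exp_pos _).le (Fm_nonneg f v x)) (fun j _ => ?_) ?_
  · rw [map_mul, eval_C, map_mul]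
    refine mul_le_mul ?_ (le_Fm f v x j) (v.nonneg _) (Real.exp_pos _).le
    refine (abv_le_exp_posLog v (μ j)).trans (Real.exp_le_exp.2 ?_)
    exact Finset.single_le_sum (f := fun j => Real.posLog (v (μ j)))
      (fun j _ => Real.posLog_nonneg) (Finset.mem_univ j)
  · simp

/-- bound of all coefficients -/
lemma coeffs_bd {K : Type} [Field K] [AdmissibleAbsValues K] {n : ℕ}
    (P : Polynomial (MvPolynomial (Fin n) K)) (a e : ℕ) (hP : P.natDegree ≤ a)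
    (h : ∀ k i, degreeOf i (P.coeff k) ≤ e) :
    ∃ c : AbsoluteValue K ℝ → ℝ, FS c ∧ (∀ v, 0 ≤ c v) ∧
      ∀ v (x : Fin n → K) k, v ((P.map (eval x)).coeff k) ≤ Real.exp (c v) * Mx v x ^ e := by
  choose c hc hc0 hb using fun k => evbd e (P.coeff k) (h k)
  refine ⟨fun v => ∑ k ∈ Finset.range (a + 1), c k v, FS.sum _ fun k _ => hc k,
    fun v => Finset.sum_nonneg fun k _ => hc0 k v, fun v x k => ?_⟩
  rw [Polynomial.coeff_map]
  rcases lt_or_ge k (a + 1) with hk | hk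
  · refine (hb k v x).trans (mul_le_mul_of_nonneg_right (Real.exp_le_exp.2 ?_)
      (pow_pos (Mx_pos v x) _).le)
    exact Finset.single_le_sum (f := fun k => c k v) (fun k _ => hc0 k v) (Finset.mem_range.2 hk)
  · rw [Polynomial.coeff_eq_zero_of_natDegree_lt (by omega), map_zero, map_zero]
    exact mul_nonneg (Real.exp_pos _).le (pow_pos (Mx_pos v x) _).le

lemma posLog_le_of {A F r m : ℝ} (hA : 0 < A) (hr : 0 < r) (h1 : r ≤ m)
    (h2 : r * A ≤ m * F) : Real.posLog (A / F) ≤ Real.log m - Real.log r := by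
  have hm : 0 < m := lt_of_lt_of_le hr h1
  have hF : 0 < F := by
    by_contra hc
    push Not at hc
    have := mul_pos hr hA
    nlinarith
  rw [Real.posLog]
  refine max_le ?_ ?_
  · have := Real.log_le_log hr h1
    linarith
  · rw [Real.log_div hA.ne' hF.ne']
    have := Real.log_le_log (mul_pos hr hA) h2
    rw [Real.log_mul hr.ne' hA.ne', Real.log_mul hm.ne' hF.ne'] at this
    linarith

/-- the computation at one place -/
lemma place {X R Mt Mz Mξ F1 F2 Fm N c1 c3 C : ℝ} {a e D : ℕ} (ha : 1 ≤ a)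
    (hC : 1 ≤ C) (hMt : 1 ≤ Mt) (hMz : 1 ≤ Mz) (hMξ : 1 ≤ Mξ) (hc1 : 1 ≤ c1) (hc3 : 1 ≤ c3)
    (hX : X = C * N ^ (2 * a) * c3) (hN : N = c1 * Mξ ^ e) (hFm : 0 ≤ Fm)
    (h1 : R ≤ C * N ^ (2 * a)) (h2 : R * Mt ^ a ≤ C * N ^ (2 * a - 1) * max F1 F2)
    (h3 : F1 * Mz ^ D ≤ c3 * (Mt ^ a * Mξ ^ e) * Fm)
    (h4 : F2 * Mz ^ D ≤ c3 * (Mt ^ a * Mξ ^ e) * Fm) : R ≤ X ∧ R * Mz ^ D ≤ X * Fm := by
  have hMt0 : 0 < Mt := by linarith
  have hMz0 : 0 < Mz := by linarith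
  have hMξ0 : 0 < Mξ := by linarith
  have hc10 : 0 < c1 := by linarith
  have hc30 : 0 < c3 := by linarith
  have hC0 : 0 < C := by linarith
  have hN0 : 0 < N := by rw [hN]; positivity
  constructor
  · rw [hX]
    refine h1.trans ?_
    have : 0 ≤ C * N ^ (2 * a) := by positivity
    nlinarith
  · have h5 : max F1 F2 * Mz ^ D ≤ c3 * (Mt ^ a * Mξ ^ e) * Fm := by
      rw [max_mul_of_nonneg _ _ (by positivity)]
      exact max_le h3 h4
    have h6 : R * Mz ^ D * Mt ^ a ≤ (C * N ^ (2 * a - 1) * (c3 * Mξ ^ e * Fm)) * Mt ^ a := by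
      calc R * Mz ^ D * Mt ^ a = (R * Mt ^ a) * Mz ^ D := by ring
        _ ≤ (C * N ^ (2 * a - 1) * max F1 F2) * Mz ^ D :=
            mul_le_mul_of_nonneg_right h2 (by positivity)
        _ = C * N ^ (2 * a - 1) * (max F1 F2 * Mz ^ D) := by ring
        _ ≤ C * N ^ (2 * a - 1) * (c3 * (Mt ^ a * Mξ ^ e) * Fm) :=
            mul_le_mul_of_nonneg_left h5 (by positivity)
        _ = _ := by ring
    have h7 := le_of_mul_le_mul_right h6 (pow_pos hMt0 a)
    refine h7.trans ?_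
    have h8 : Mξ ^ e ≤ N := by
      rw [hN]
      have : 0 < Mξ ^ e := by positivity
      nlinarith
    obtain ⟨k, hk⟩ : ∃ k, 2 * a = k + 1 := ⟨2 * a - 1, by omega⟩
    have hk' : 2 * a - 1 = k := by omega
    rw [hk', hX, hk, pow_succ]
    have h9 : C * N ^ k * (c3 * Mξ ^ e * Fm) = (C * N ^ k * c3 * Fm) * Mξ ^ e := by ring
    have h10 : C * (N ^ k * N) * c3 * Fm = (C * N ^ k * c3 * Fm) * N := by ring
    rw [h9, h10]
    exact mul_le_mul_of_nonneg_left h8 (by positivity)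

/-- The main estimate, over a field with absolute values. -/
theorem est_gen (hMUL : G_MUL) (hNF : G_NF) (hNV : G_NV) (hDEG : G_DEG) (hLOC : G_LOC)
    (hRL : G_RL) (K : Type) [Field K] [AdmissibleAbsValues K] [CharZero K] [DecidableEq K]
    (W : Affine K) [W.IsElliptic] (n : ℕ) (hn : 2 ≤ n) (ι : Type) [Fintype ι] (D : ℕ)
    (hD : 1 ≤ D) (f : ι → MvPolynomial (Fin n) K) (hf : GoodF D f) (c : Fin n → ℕ) (hc : c ≠ 0) :
    ∃ (ρ : MvPolynomial (Fin n) K) (C : ℝ), ρ ≠ 0 ∧ 0 ≤ C ∧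
      ∀ (w : W.Point) (b : Fin n → W.Point), w ≠ 0 → (∀ i, b i ≠ 0) → (∀ i, c i • w + b i ≠ 0) →
      eval (fun i => xc (b i)) ρ ≠ 0 →
      gF D f (fun i => xc (c i • w + b i)) ≤
        2 ^ (2 * n + 1) * (D : ℝ) ^ 2 * (∑ i, (c i : ℝ) ^ 2) * ∑ i, hx (b i) + C := by
  choose A B hAB using fun i => hMUL K W (c i)
  obtain ⟨μ, ν, hμν⟩ := hNV K W n hn ι D f hf c A B hAB
  obtain ⟨Nμ, hNμ⟩ := hNF n K D (lc f μ) (degreeOf_lc f μ hf.deg)
  obtain ⟨Nν, hNν⟩ := hNF n K D (lc f ν) (degreeOf_lc f ν hf.deg)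
  have hρ := hμν Nμ Nν hNμ hNν
  obtain ⟨dμ1, dμ2, -⟩ := hDEG K W n D c A B hAB (lc f μ) Nμ hNμ
  obtain ⟨dν1, dν2, -⟩ := hDEG K W n D c A B hAB (lc f ν) Nν hNν
  obtain ⟨lμ, hlμ, hlμ0, hLμ⟩ := hLOC K W n D c A B hAB (lc f μ) Nμ (degreeOf_lc f μ hf.deg) hNμ
  obtain ⟨lν, hlν, hlν0, hLν⟩ := hLOC K W n D c A B hAB (lc f ν) Nν (degreeOf_lc f ν hf.deg) hNν
  obtain ⟨mμ, hmμ, hmμ0, hMμ⟩ := abv_lc f μ
  obtain ⟨mν, hmν, hmν0, hMν⟩ := abv_lc f ν
  obtain ⟨kμ, hkμ, hkμ0, hKμ⟩ := coeffs_bd _ _ _ dμ1 dμ2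
  obtain ⟨kν, hkν, hkν0, hKν⟩ := coeffs_bd _ _ _ dν1 dν2
  obtain ⟨Cr, hCr, hR⟩ := hRL
  set a := aa n D c with ha
  set e := 2 ^ n * D with he
  have ha1 : 1 ≤ a := by
    rw [ha, aa]
    obtain ⟨i, hi⟩ := Function.ne_iff.1 hc
    have h1 : 1 ≤ c i ^ 2 := Nat.one_le_iff_ne_zero.2 (pow_ne_zero _ hi)
    have h2 : c i ^ 2 ≤ ∑ i, c i ^ 2 :=
      Finset.single_le_sum (f := fun i => c i ^ 2) (fun _ _ => Nat.zero_le _) (Finset.mem_univ i)
    have h3 : 1 ≤ 2 ^ n * D := Nat.one_le_iff_ne_zero.2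
      (mul_ne_zero (pow_ne_zero _ two_ne_zero) (by omega))
    exact Nat.one_le_iff_ne_zero.2 (mul_ne_zero (by omega) (by omega))
  set ρ := Polynomial.resultant (HP W A B Nμ) (HP W A B Nν) a a with hρdef
  -- the constant functions
  set c1 : AbsoluteValue K ℝ → ℝ := fun v => kμ v + kν v with hc1
  set c3 : AbsoluteValue K ℝ → ℝ := fun v => (lμ v + lν v) + (mμ v + mν v) with hc3
  have hc1F : FS c1 := hkμ.add hkν
  have hc3F : FS c3 := (hlμ.add hlν).add (hmμ.add hmν)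
  have hc10 : ∀ v, 0 ≤ c1 v := fun v => add_nonneg (hkμ0 v) (hkν0 v)
  have hc30 : ∀ v, 0 ≤ c3 v := fun v =>
    add_nonneg (add_nonneg (hlμ0 v) (hlν0 v)) (add_nonneg (hmμ0 v) (hmν0 v))
  set g : AbsoluteValue K ℝ → ℝ := fun v =>
    Real.log (cst v (Cr a)) + ((2 * a : ℝ) * c1 v + c3 v) with hg
  have hgF : FS g := (FS_log_cst _).add ((hc1F.const_mul _).add hc3F)
  have hg0 : ∀ v, 0 ≤ g v := fun v => add_nonneg (Real.log_nonneg (one_le_cst v (hCr a)))
    (add_nonneg (mul_nonneg (by positivity) (hc10 v)) (hc30 v))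
  refine ⟨ρ, PS g, hρ, PS_nonneg hgF hg0, fun w b hw hb hz hξ => ?_⟩
  set ξ : Fin n → K := fun i => xc (b i) with hξdef
  set z : Fin n → K := fun i => xc (c i • w + b i) with hzdef
  set Fp := (HP W A B Nμ).map (eval ξ) with hFp
  set Gp := (HP W A B Nν).map (eval ξ) with hGp
  have hres : Polynomial.resultant Fp Gp a a = eval ξ ρ := Polynomial.resultant_map_map ..
  have key : ∀ v : AbsoluteValue K ℝ, v (eval ξ ρ) ≤
      cst v (Cr a) * (Real.exp (c1 v) * Mx v ξ ^ e) ^ (2 * a) * Real.exp (c3 v) ∧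
      v (eval ξ ρ) * Mx v z ^ D ≤
      cst v (Cr a) * (Real.exp (c1 v) * Mx v ξ ^ e) ^ (2 * a) * Real.exp (c3 v) * Fm f v z := by
    intro v
    have hNn : 0 ≤ Mx v ξ ^ e := (pow_pos (Mx_pos v ξ) _).le
    have hb1 : ∀ k, v (Fp.coeff k) ≤ Real.exp (c1 v) * Mx v ξ ^ e := fun k =>
      (hKμ v ξ k).trans (mul_le_mul_of_nonneg_right
        (Real.exp_le_exp.2 (le_add_of_nonneg_right (hkν0 v))) hNn)
    have hb2 : ∀ k, v (Gp.coeff k) ≤ Real.exp (c1 v) * Mx v ξ ^ e := fun k =>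
      (hKν v ξ k).trans (mul_le_mul_of_nonneg_right
        (Real.exp_le_exp.2 (le_add_of_nonneg_left (hkμ0 v))) hNn)
    obtain ⟨r1, r2⟩ := hR K v a Fp Gp (xc w) (Real.exp (c1 v) * Mx v ξ ^ e)
      ((Polynomial.natDegree_map_le).trans dμ1) ((Polynomial.natDegree_map_le).trans dν1) hb1 hb2
    rw [hres] at r1 r2
    have hfac : ∀ (l m : ℝ) (y : ℝ), l + m ≤ c3 v → 0 ≤ y →
        y ≤ Real.exp m * Fm f v z →
        Real.exp l * (Mv v (xc w) ^ a * Mx v ξ ^ e) * y ≤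
          Real.exp (c3 v) * (Mv v (xc w) ^ a * Mx v ξ ^ e) * Fm f v z := by
      intro l m y hlm hy0 hy
      have hq : 0 ≤ Mv v (xc w) ^ a * Mx v ξ ^ e := mul_nonneg (pow_pos (Mv_pos v _) _).le hNn
      calc Real.exp l * (Mv v (xc w) ^ a * Mx v ξ ^ e) * y
          ≤ Real.exp l * (Mv v (xc w) ^ a * Mx v ξ ^ e) * (Real.exp m * Fm f v z) :=
            mul_le_mul_of_nonneg_left hy (mul_nonneg (Real.exp_pos _).le hq)
        _ = Real.exp (l + m) * ((Mv v (xc w) ^ a * Mx v ξ ^ e) * Fm f v z) := by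
            rw [Real.exp_add]; ring
        _ ≤ Real.exp (c3 v) * ((Mv v (xc w) ^ a * Mx v ξ ^ e) * Fm f v z) :=
            mul_le_mul_of_nonneg_right (Real.exp_le_exp.2 hlm) (mul_nonneg hq (Fm_nonneg f v z))
        _ = _ := by ring
    have e1 := hLμ v w b hw hb hz
    have e2 := hLν v w b hw hb hz
    have q1 := hlμ0 v
    have q2 := hlν0 v
    have q3 := hmμ0 v
    have q4 := hmν0 v
    have f1 := e1.trans (hfac (lμ v) (mμ v) _ (by simp only [hc3]; linarith) (v.nonneg _)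
      (hMμ v z))
    have f2 := e2.trans (hfac (lν v) (mν v) _ (by simp only [hc3]; linarith) (v.nonneg _)
      (hMν v z))
    exact place ha1 (one_le_cst v (hCr a)) (one_le_Mv v _) (one_le_Mx v z) (one_le_Mx v ξ)
      (Real.one_le_exp (hc10 v)) (Real.one_le_exp (hc30 v)) rfl rfl (Fm_nonneg f v z) r1
      (r2 ha1) f1 f2
  have hloc : ∀ v, lamF D f v z ≤ (g v + (2 * a * e : ℝ) * Real.log (Mx v ξ)) -
      Real.log (v (eval ξ ρ)) := by
    intro v
    obtain ⟨k1, k2⟩ := key v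
    have h := posLog_le_of (pow_pos (Mx_pos v z) D) (v.pos hξ) k1 k2
    have hlog : Real.log (cst v (Cr a) * (Real.exp (c1 v) * Mx v ξ ^ e) ^ (2 * a) *
        Real.exp (c3 v)) = g v + (2 * a * e : ℝ) * Real.log (Mx v ξ) := by
      have hM := Mx_pos v ξ
      have hC := cst_pos v (hCr a)
      have hE := Real.exp_pos (c1 v)
      rw [Real.log_mul (mul_pos hC (by positivity)).ne' (Real.exp_pos _).ne', Real.log_exp,
        Real.log_mul hC.ne' (by positivity), Real.log_pow,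
        Real.log_mul hE.ne' (by positivity), Real.log_exp, Real.log_pow]
      simp only [hg]
      push_cast
      ring
    rw [hlog] at h
    exact h
  -- some member of the family does not vanish at `z`
  have hex : ∃ j, eval z (f j) ≠ 0 := by
    by_contra hcon
    push Not at hcon
    have hv := (key AbsoluteValue.trivial).2
    have hz0 : Fm f AbsoluteValue.trivial z = 0 := by
      rw [Fm]
      simp [hcon]
    rw [hz0, mul_zero] at hv
    have h1 := AbsoluteValue.pos (AbsoluteValue.trivial (R := K) (S := ℝ)) hξ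
    have h2 := mul_pos h1 (pow_pos (Mx_pos (AbsoluteValue.trivial (R := K) (S := ℝ)) z) D)
    linarith
  obtain ⟨j, hj⟩ := hex
  have hFl := FS_lamF D f z j hj
  have hFr : FS (fun v => (g v + (2 * a * e : ℝ) * Real.log (Mx v ξ))) :=
    hgF.add ((FS_log_Mx ξ).const_mul _)
  have hsum := PS_mono hFl (hFr.sub (FS_log hξ)) hloc
  rw [PS_sub hFr (FS_log hξ), PS_log hξ, sub_zero, PS_add hgF ((FS_log_Mx ξ).const_mul _),
    PS_const_mul, PS_log_Mx] at hsum
  have hfin : (2 * a * e : ℝ) = 2 ^ (2 * n + 1) * (D : ℝ) ^ 2 * (∑ i, (c i : ℝ) ^ 2) := by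
    rw [ha, he, aa]
    push_cast
    ring
  rw [hfin] at hsum
  have hfin2 : gF D f z ≤ PS g + 2 ^ (2 * n + 1) * (D : ℝ) ^ 2 * (∑ i, (c i : ℝ) ^ 2) *
      ∑ i, hx (b i) := hsum
  linarith

/-- EST, from the packets MUL, NF, NV, DEG, LOC, RL. -/
theorem gEST (hMUL : G_MUL) (hNF : G_NF) (hNV : G_NV) (hDEG : G_DEG) (hLOC : G_LOC)
    (hRL : G_RL) : G_EST := by
  intro K _ _ _ W _ n hn ι _ D hD f hf c hc
  exact est_gen hMUL hNF hNV hDEG hLOC hRL K W n hn ι D hD f hf c hc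

end

end Pool.Agent.Helper17.RO
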